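import Pool.Agent.W785.FD.Stms

/-! Project FD: connectedness from the Poincare inequality (helper366). -/

set_option autoImplicit false

open MeasureTheory Metric Set Filter
open scoped ENNReal NNReal Topology

namespace Pool.Agent.W366.FD.Ann

open Pool.Agent.W785.FD

lemma open_pos {X : Type*} [MetricSpace X] [MeasurableSpace X] {μ : Measure X} {D : ℝ}
    (hD : Dbl μ D) {U : Set X} (hU : IsOpen U) {z : X} (hz : z ∈ U) : 0 < μ U := by
  obtain ⟨ε, hε, hs⟩ := Metric.isOpen_iff.1 hU z hz
  exact (hD.pos z ε hε).trans_le (measure_mono hs)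

lemma preconn {X : Type*} [MetricSpace X] [MeasurableSpace X] [BorelSpace X]
    (μ : Measure X) (p C L D : ℝ) (hD : Dbl μ D) (h : PI μ p C L) : PreconnectedSpace X := by
  rw [preconnectedSpace_iff_clopen]
  intro A hA
  by_contra hcon
  rw [not_or] at hcon
  obtain ⟨a, ha⟩ := Set.nonempty_iff_ne_empty.2 hcon.1
  obtain ⟨b, hb⟩ := (Set.ne_univ_iff_exists_notMem A).1 hcon.2
  have hAm : MeasurableSet A := hA.isOpen.measurableSet
  set u : X → ℝ := A.indicator (fun _ => (1 : ℝ)) with hu
  have hum : Measurable u := measurable_const.indicator hAm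
  have hLI : LI μ u := by
    intro x r
    have h1 : IntegrableOn (fun _ : X => (1 : ℝ)) (ball x r) μ :=
      integrableOn_const (hs := (hD.fin x r).ne)
    exact h1.indicator hAm
  have hUG : UG u (fun _ => 0) := by
    refine ⟨measurable_const, fun c => ?_⟩
    have h2 : c.γ 0 ∈ A ↔ c.γ c.l ∈ A := by
      rcases isClopen_iff.1 (hA.preimage c.lip.continuous) with h3 | h3
      · have e1 : c.γ 0 ∉ A := fun hc => by
          have : (0 : ℝ) ∈ c.γ ⁻¹' A := hc
          rw [h3] at this
          exact this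
        have e2 : c.γ c.l ∉ A := fun hc => by
          have : c.l ∈ c.γ ⁻¹' A := hc
          rw [h3] at this
          exact this
        exact ⟨fun hc => absurd hc e1, fun hc => absurd hc e2⟩
      · have e1 : (0 : ℝ) ∈ c.γ ⁻¹' A := by rw [h3]; exact mem_univ _
        have e2 : c.l ∈ c.γ ⁻¹' A := by rw [h3]; exact mem_univ _
        exact ⟨fun _ => e2, fun _ => e1⟩
    have h3 : u (c.γ 0) = u (c.γ c.l) := by
      by_cases h4 : c.γ 0 ∈ A
      · rw [hu, Set.indicator_of_mem h4, Set.indicator_of_mem (h2.1 h4)]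
      · rw [hu, Set.indicator_of_notMem h4, Set.indicator_of_notMem (fun h5 => h4 (h2.2 h5))]
    unfold CrvIneq
    rw [h3, sub_self, abs_zero, ENNReal.ofReal_zero]
    exact bot_le
  set r : ℝ := dist b a + 1 with hr
  have hr0 : 0 < r := by positivity
  have hp : 0 < p := by linarith [h.one_lt]
  have h1 := h.poin u (fun _ => 0) hLI hUG a r hr0
  have h2 : lav μ (fun y : X => ((fun _ : X => (0 : ℝ≥0∞)) y) ^ p) a (L * r) = 0 := by
    unfold lav
    simp [ENNReal.zero_rpow_of_pos hp]
  rw [h2, ENNReal.zero_rpow_of_pos (by positivity), mul_zero, nonpos_iff_eq_zero] at h1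
  unfold osc lav at h1
  rw [ENNReal.div_eq_zero_iff] at h1
  have h3 := h1.resolve_right (hD.fin a r).ne
  set m : ℝ := mean μ u a r with hm
  rw [lintegral_eq_zero_iff (by fun_prop)] at h3
  have h4 : ∀ᵐ y ∂(μ.restrict (ball a r)), u y = m := by
    filter_upwards [h3] with y hy
    have h5 : ENNReal.ofReal |u y - m| = 0 := hy
    rw [ENNReal.ofReal_eq_zero] at h5
    have h6 : |u y - m| = 0 := le_antisymm h5 (abs_nonneg _)
    exact sub_eq_zero.1 (abs_eq_zero.1 h6)
  rw [ae_iff] at h4
  have key : ∀ V : Set X, IsOpen V → ∀ z ∈ V, z ∈ ball a r → ∃ y ∈ V, u y = m := by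
    intro V hV z hz hzb
    by_contra hc
    push Not at hc
    have h5 : V ⊆ {y | ¬ u y = m} := fun y hy => hc y hy
    have h6 : μ.restrict (ball a r) V = 0 := measure_mono_null h5 h4
    rw [Measure.restrict_apply hV.measurableSet] at h6
    exact (open_pos hD (hV.inter isOpen_ball) ⟨hz, hzb⟩).ne' h6
  obtain ⟨y1, hy1, e1⟩ := key A hA.isOpen a ha (mem_ball_self hr0)
  obtain ⟨y2, hy2, e2⟩ := key Aᶜ hA.isClosed.isOpen_compl b hb (by
    rw [mem_ball]
    linarith)
  rw [hu, Set.indicator_of_mem hy1] at e1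
  rw [hu, Set.indicator_of_notMem hy2] at e2
  linarith

theorem main {X : Type*} [MetricSpace X] [ProperSpace X] [Nontrivial X] [MeasurableSpace X]
    [BorelSpace X] (μ : Measure X) (p C L D : ℝ) (hD : Dbl μ D) (h : PI μ p C L) : S_ANN X := by
  have hpc := preconn μ p C L D hD h
  intro x
  obtain ⟨y, hy⟩ := exists_ne x
  refine ⟨dist y x / 5, by have := dist_pos.2 hy; positivity, fun r hr0 hr => ?_⟩
  have h1 : 5 * r ∈ Set.range (fun z : X => dist z x) := by
    refine mem_range_of_exists_le_of_exists_ge (by fun_prop) ⟨x, ?_⟩ ⟨y, ?_⟩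
    · rw [dist_self]
      positivity
    · linarith
  obtain ⟨z, hz⟩ := h1
  exact ⟨z, hz⟩

end Pool.Agent.W366.FD.Ann
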